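import Pool.Agent.Q7.LK.Stm
import Pool.Agent.Q14.LQS.Cr1a

/-!
# Project LK, job CR1A: a relation between units of relative norm `1`

The template is `Pool.Agent.Q14.LQS.Cr1a` (`p = 2`); the submodule of the relations and the linear maps are those of
`Pool.Agent.Q14.LQS.Rel`, over the `p`-adic integers.
-/

set_option autoImplicit false

namespace Pool.Agent.Q123.LK

open NumberField IsDedekindDomain Filter Topology Finset
open Pool.Agent.Q7.LK
open Pool.Agent.Q14.LQS (cgs mem_cgs prod_pow_comb unit_basis sU sU_coe nU nU_coe nU_eq_one eU sU_cgs)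

variable {p : ℕ} [Fact p.Prime]

section R

variable {K : Type} [Field K] [NumberField K] {J : Ideal (𝓞 K)} {n : ℕ} {ε : Fin n → (𝓞 K)ˣ}

theorem rel_iff {a : Fin n → ℤ_[p]} : Rel p K J ε a ↔
    ∃ m : ℕ → Fin n → ℤ, (∀ i, Tendsto (fun k => ((m k i : ℤ) : ℤ_[p])) atTop (𝓝 (a i))) ∧
    ∀ N : ℕ, ∀ᶠ k in atTop, ∏ i, ε i ^ m k i ∈ cgs (J ^ N) := by
  unfold Pool.Agent.Q7.LK.Rel
  simp only [mem_cgs]

theorem rel_zero : Rel p K J ε 0 := by
  rw [rel_iff]
  refine ⟨fun _ => 0, fun i => ?_, fun N => Eventually.of_forall fun k => ?_⟩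
  · simp
  · simp only [Pi.zero_apply, zpow_zero, Finset.prod_const_one]
    exact (cgs (J ^ N)).one_mem

theorem rel_add {a b : Fin n → ℤ_[p]} (ha : Rel p K J ε a) (hb : Rel p K J ε b) :
    Rel p K J ε (a + b) := by
  rw [rel_iff] at *
  obtain ⟨m, hm, hm2⟩ := ha
  obtain ⟨m', hm', hm2'⟩ := hb
  refine ⟨fun k i => m k i + m' k i, fun i => ?_, fun N => ?_⟩
  · have := (hm i).add (hm' i)
    refine this.congr fun k => ?_
    push_cast
    rfl
  · filter_upwards [hm2 N, hm2' N] with k h1 h2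
    have e : ∏ i, ε i ^ (m k i + m' k i) = (∏ i, ε i ^ m k i) * ∏ i, ε i ^ m' k i := by
      rw [← Finset.prod_mul_distrib]
      exact Finset.prod_congr rfl fun i _ => zpow_add _ _ _
    rw [e]
    exact (cgs (J ^ N)).mul_mem h1 h2

theorem exists_nat_tendsto (c : ℤ_[p]) : ∃ u : ℕ → ℕ, Tendsto (fun k => ((u k : ℕ) : ℤ_[p])) atTop
    (𝓝 c) := by
  have h : ∀ k : ℕ, ∃ u : ℕ, dist c ((u : ℕ) : ℤ_[p]) < 1 / ((k : ℝ) + 1) := fun k =>
    PadicInt.denseRange_natCast.exists_dist_lt c (by positivity)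
  choose u hu using h
  refine ⟨u, ?_⟩
  rw [tendsto_iff_dist_tendsto_zero]
  refine squeeze_zero (fun k => dist_nonneg) (fun k => ?_) tendsto_one_div_add_atTop_nhds_zero_nat
  rw [dist_comm]
  exact (hu k).le

theorem rel_smul (c : ℤ_[p]) {a : Fin n → ℤ_[p]} (ha : Rel p K J ε a) : Rel p K J ε (c • a) := by
  rw [rel_iff] at *
  obtain ⟨m, hm, hm2⟩ := ha
  obtain ⟨u, hu⟩ := exists_nat_tendsto c
  refine ⟨fun k i => u k * m k i, fun i => ?_, fun N => ?_⟩
  · have := hu.mul (hm i)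
    refine this.congr fun k => ?_
    push_cast
    rfl
  · filter_upwards [hm2 N] with k h1
    have e : ∏ i, ε i ^ ((u k : ℤ) * m k i) = (∏ i, ε i ^ m k i) ^ u k := by
      rw [← Finset.prod_pow]
      refine Finset.prod_congr rfl fun i _ => ?_
      rw [mul_comm, zpow_mul, zpow_natCast]
    rw [e]
    exact (cgs (J ^ N)).pow_mem h1 _

/-- the module of the relations -/
noncomputable def relMod (p : ℕ) [Fact p.Prime] (J : Ideal (𝓞 K)) {n : ℕ} (ε : Fin n → (𝓞 K)ˣ) :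
    Submodule ℤ_[p] (Fin n → ℤ_[p]) where
  carrier := {a | Rel p K J ε a}
  add_mem' := fun ha hb => rel_add ha hb
  zero_mem' := rel_zero
  smul_mem' := fun c _ ha => rel_smul c ha

theorem mem_relMod {a : Fin n → ℤ_[p]} : a ∈ relMod p J ε ↔ Rel p K J ε a := Iff.rfl

/-- the linear map given by an integral matrix -/
noncomputable def lm (p : ℕ) [Fact p.Prime] {n q : ℕ} (C : Fin n → Fin q → ℤ) :
    (Fin n → ℤ_[p]) →ₗ[ℤ_[p]] (Fin q → ℤ_[p]) where
  toFun b := fun j => ∑ i, b i * ((C i j : ℤ) : ℤ_[p])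
  map_add' a b := by
    funext j
    simp only [Pi.add_apply, add_mul, Finset.sum_add_distrib]
  map_smul' c b := by
    funext j
    simp only [Pi.smul_apply, smul_eq_mul, RingHom.id_apply, Finset.mul_sum, mul_assoc]

theorem lm_apply {n q : ℕ} (C : Fin n → Fin q → ℤ) (b : Fin n → ℤ_[p]) (j : Fin q) :
    lm p C b j = ∑ i, b i * ((C i j : ℤ) : ℤ_[p]) := rfl

theorem rel_lm {q : ℕ} {δ : Fin q → (𝓞 K)ˣ} (h : ℕ) (C : Fin n → Fin q → ℤ)
    (hC : ∀ i, ε i ^ h = ∏ j, δ j ^ C i j) {b : Fin n → ℤ_[p]} (hb : Rel p K J ε b) :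
    Rel p K J δ (lm p C b) := by
  rw [rel_iff] at *
  obtain ⟨m, hm, hm2⟩ := hb
  refine ⟨fun k j => ∑ i, m k i * C i j, fun j => ?_, fun N => ?_⟩
  · rw [lm_apply]
    have := tendsto_finsetSum (univ : Finset (Fin n)) fun i _ =>
      (hm i).mul_const ((C i j : ℤ) : ℤ_[p])
    refine this.congr fun k => ?_
    push_cast
    rfl
  · filter_upwards [hm2 N] with k h1
    rw [← prod_pow_comb ε δ h C hC]
    exact (cgs (J ^ N)).pow_mem h1 _

theorem rel_hom {K' : Type} [Field K'] [NumberField K'] {J' : Ideal (𝓞 K')}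
    (f : (𝓞 K)ˣ →* (𝓞 K')ˣ) (hf : ∀ N x, x ∈ cgs (J ^ N) → f x ∈ cgs (J' ^ N))
    {b : Fin n → ℤ_[p]} (hb : Rel p K J ε b) : Rel p K' J' (fun i => f (ε i)) b := by
  rw [rel_iff] at *
  obtain ⟨m, hm, hm2⟩ := hb
  refine ⟨m, hm, fun N => ?_⟩
  filter_upwards [hm2 N] with k h1
  have e : ∏ i, f (ε i) ^ m k i = f (∏ i, ε i ^ m k i) := by
    rw [map_prod]
    exact Finset.prod_congr rfl fun i _ => (map_zpow f _ _).symm
  rw [e]
  exact hf N _ h1

end R

/-- integral vectors independent over the integers are independent over the `p`-adic integers -/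
theorem inj_padic {n : ℕ} {ι : Type} [Fintype ι] (M : Fin n → ι → ℤ)
    (h : ∀ c : Fin n → ℤ, (∀ j, ∑ i, c i * M i j = 0) → c = 0) (b : Fin n → ℤ_[p])
    (hb : ∀ j, ∑ i, b i * ((M i j : ℤ) : ℤ_[p]) = 0) : b = 0 := by
  classical
  -- the rational map
  let f : (Fin n → ℚ) →ₗ[ℚ] (ι → ℚ) :=
    { toFun := fun x j => ∑ i, x i * (M i j : ℚ)
      map_add' := fun x y => by
        funext j
        simp only [Pi.add_apply, add_mul, Finset.sum_add_distrib]
      map_smul' := fun c x => by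
        funext j
        simp only [Pi.smul_apply, smul_eq_mul, RingHom.id_apply, Finset.mul_sum, mul_assoc] }
  have hf : LinearMap.ker f = ⊥ := by
    rw [LinearMap.ker_eq_bot']
    intro x hx
    obtain ⟨d, hd⟩ := IsLocalization.exist_integer_multiples_of_finite (nonZeroDivisors ℤ) x
    have hd0 : ((d : ℤ) : ℚ) ≠ 0 := by
      have := nonZeroDivisors.ne_zero d.2
      exact_mod_cast this
    choose c hc using hd
    have hc' : ∀ i, ((c i : ℤ) : ℚ) = ((d : ℤ) : ℚ) * x i := by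
      intro i
      have := hc i
      rw [Algebra.smul_def] at this
      exact this
    have h1 : c = 0 := by
      apply h
      intro j
      have h2 : ∑ i, x i * (M i j : ℚ) = 0 := congrFun hx j
      have h3 : ((∑ i, c i * M i j : ℤ) : ℚ) = 0 := by
        push_cast
        calc ∑ i, (c i : ℚ) * (M i j : ℚ) = ((d : ℤ) : ℚ) * ∑ i, x i * (M i j : ℚ) := by
              rw [Finset.mul_sum]
              refine Finset.sum_congr rfl fun i _ => ?_
              rw [hc' i]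
              ring
          _ = 0 := by rw [h2, mul_zero]
      exact_mod_cast h3
    funext i
    have h4 := hc' i
    rw [h1] at h4
    rw [Pi.zero_apply, Int.cast_zero] at h4
    exact (mul_eq_zero.1 h4.symm).resolve_left hd0
  obtain ⟨g, hg⟩ := f.exists_leftInverse_of_injective hf
  obtain ⟨G, hG⟩ : ∃ G : ι → Fin n → ℚ, ∀ j i, G j i = g (Pi.single j 1) i := ⟨_, fun j i => rfl⟩
  have hMG : ∀ i k, ∑ j, (M i j : ℚ) * G j k = if i = k then 1 else 0 := by
    intro i k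
    have h1 : g (f (Pi.single i 1)) = Pi.single i 1 := by
      have := LinearMap.congr_fun hg (Pi.single i 1)
      exact this
    have h2 : f (Pi.single i 1) = ∑ j, (M i j : ℚ) • (Pi.single j (1 : ℚ) : ι → ℚ) := by
      funext j
      show ∑ i', (Pi.single i (1 : ℚ) : Fin n → ℚ) i' * (M i' j : ℚ) = _
      rw [Finset.sum_eq_single i]
      · rw [Pi.single_eq_same, one_mul, Finset.sum_apply, Finset.sum_eq_single j]
        · simp
        · intro b _ hb
          rw [Pi.smul_apply, Pi.single_eq_of_ne (Ne.symm hb), smul_zero]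
        · intro hj
          exact absurd (Finset.mem_univ j) hj
      · intro i' _ hi'
        rw [Pi.single_eq_of_ne hi', zero_mul]
      · intro hi
        exact absurd (Finset.mem_univ i) hi
    rw [h2, map_sum] at h1
    have h3 := congrFun h1 k
    rw [Finset.sum_apply] at h3
    calc ∑ j, (M i j : ℚ) * G j k = ∑ j, (g ((M i j : ℚ) • (Pi.single j (1 : ℚ) : ι → ℚ))) k := by
          refine Finset.sum_congr rfl fun j _ => ?_
          rw [map_smul, hG]
          rfl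
      _ = (Pi.single i (1 : ℚ) : Fin n → ℚ) k := h3
      _ = _ := by
          rw [Pi.single_apply]
          by_cases hik : i = k
          · rw [if_pos hik, if_pos hik.symm]
          · rw [if_neg hik, if_neg (Ne.symm hik)]
  funext k
  have h1 : ((b k : ℤ_[p]) : ℚ_[p]) = ∑ i, ((b i : ℤ_[p]) : ℚ_[p]) * (if i = k then 1 else 0) := by
    simp
  have h2 : ∀ i, ((if i = k then 1 else 0 : ℚ_[p])) = ∑ j, ((M i j : ℤ) : ℚ_[p]) * ((G j k : ℚ) : ℚ_[p]) := by
    intro i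
    have h3 := congrArg (fun x : ℚ => (x : ℚ_[p])) (hMG i k)
    have h4 : ((∑ j, (M i j : ℚ) * G j k : ℚ) : ℚ_[p]) =
        ∑ j, ((M i j : ℤ) : ℚ_[p]) * ((G j k : ℚ) : ℚ_[p]) := by push_cast; rfl
    rw [← h4]
    rw [show ((∑ j, (M i j : ℚ) * G j k : ℚ) : ℚ_[p]) = (((if i = k then 1 else 0 : ℚ)) : ℚ_[p]) from h3]
    split_ifs <;> simp
  have h5 : ((b k : ℤ_[p]) : ℚ_[p]) = 0 := by
    rw [h1]
    calc ∑ i, ((b i : ℤ_[p]) : ℚ_[p]) * (if i = k then 1 else 0) =
          ∑ i, ∑ j, ((b i : ℤ_[p]) : ℚ_[p]) * (((M i j : ℤ) : ℚ_[p]) * ((G j k : ℚ) : ℚ_[p])) := by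
          refine Finset.sum_congr rfl fun i _ => ?_
          rw [h2 i, Finset.mul_sum]
      _ = ∑ j, (∑ i, ((b i : ℤ_[p]) : ℚ_[p]) * ((M i j : ℤ) : ℚ_[p])) * ((G j k : ℚ) : ℚ_[p]) := by
          rw [Finset.sum_comm]
          refine Finset.sum_congr rfl fun j _ => ?_
          rw [Finset.sum_mul]
          refine Finset.sum_congr rfl fun i _ => ?_
          ring
      _ = 0 := by
          refine Finset.sum_eq_zero fun j _ => ?_
          have h6 : (∑ i, ((b i : ℤ_[p]) : ℚ_[p]) * ((M i j : ℤ) : ℚ_[p])) = 0 := by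
            have h7 := congrArg (fun x : ℤ_[p] => (x : ℚ_[p])) (hb j)
            have h8 : ((∑ i, b i * ((M i j : ℤ) : ℤ_[p]) : ℤ_[p]) : ℚ_[p]) =
                ∑ i, ((b i : ℤ_[p]) : ℚ_[p]) * ((M i j : ℤ) : ℚ_[p]) := by
              have h9 := map_sum PadicInt.Coe.ringHom
                (fun i => b i * ((M i j : ℤ) : ℤ_[p])) (univ : Finset (Fin n))
              refine h9.trans (Finset.sum_congr rfl fun i _ => ?_)
              rw [map_mul, map_intCast]
              rfl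
            rw [← h8]
            exact h7
          rw [h6, zero_mul]
  exact PadicInt.coe_eq_zero.1 h5

section Kummer

open Polynomial IntermediateField

theorem isGalois_kum {F L : Type} [Field F] [NumberField F] [Field L] [NumberField L] [Algebra F L] {ζ d : F}
    (hζ : IsPrimitiveRoot ζ p) (hK : Kum p F L d) (hd : ¬ IsPow p d) : IsGalois F L := by
  have hpp : p.Prime := Fact.out
  obtain ⟨ρ, hρ⟩ := hK.root
  have hirr : Irreducible (X ^ p - C d : F[X]) := by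
    rw [X_pow_sub_C_irreducible_iff_of_prime hpp]
    intro b hb
    exact hd ⟨b, hb.symm⟩
  have hmin : X ^ p - C d = minpoly F ρ := by
    refine minpoly.eq_of_irreducible_of_monic hirr ?_ (monic_X_pow_sub_C d hpp.ne_zero)
    rw [map_sub, map_pow, aeval_X, aeval_C, hρ, sub_self]
  have htop : F⟮ρ⟯ = ⊤ := by
    rw [Field.primitive_element_iff_minpoly_natDegree_eq, ← hmin, natDegree_X_pow_sub_C, hK.deg]
  have hne : (primitiveRoots (Module.finrank F L) F).Nonempty := by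
    rw [hK.deg]
    exact ⟨ζ, (mem_primitiveRoots hpp.pos).2 hζ⟩
  have h1 := (isCyclic_tfae F L hne).out 2 0
  exact (h1.1 ⟨ρ, ⟨d, by rw [hK.deg, hρ]⟩, htop⟩).1

end Kummer

section Q

variable {F L : Type} [Field F] [NumberField F] [Field L] [NumberField L] [Algebra F L]

theorem eU_nU [IsGalois F L] (x : (𝓞 L)ˣ) : (eU (nU F x) : (𝓞 L)ˣ) = ∏ σ : L ≃ₐ[F] L, sU σ x := by
  apply Units.ext
  apply RingOfIntegers.ext
  have h1 := Algebra.norm_eq_prod_automorphisms F ((x : 𝓞 L) : L)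
  rw [← nU_coe] at h1
  have h2 : (((eU (nU F x) : (𝓞 L)ˣ) : 𝓞 L) : L) = algebraMap F L ((nU F x : 𝓞 F) : F) := rfl
  have h3 : (((∏ σ : L ≃ₐ[F] L, sU σ x : (𝓞 L)ˣ) : 𝓞 L) : L) = ∏ σ : L ≃ₐ[F] L, σ ((x : 𝓞 L) : L) := by
    rw [Units.coe_prod]
    exact map_prod (algebraMap (𝓞 L) L) _ _
  rw [h2, h1, h3]

theorem enU_cgs [IsGalois F L] (I : Ideal (𝓞 F)) (N : ℕ) (x : (𝓞 L)ˣ)
    (hx : x ∈ cgs (I.map (algebraMap (𝓞 F) (𝓞 L)) ^ N)) :
    (eU (nU F x) : (𝓞 L)ˣ) ∈ cgs (I.map (algebraMap (𝓞 F) (𝓞 L)) ^ N) := by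
  rw [eU_nU]
  exact Subgroup.prod_mem _ fun σ _ => sU_cgs σ I N x hx

theorem nU_cgs [IsGalois F L] (I : Ideal (𝓞 F)) (N : ℕ) (x : (𝓞 L)ˣ)
    (hx : x ∈ cgs (I.map (algebraMap (𝓞 F) (𝓞 L)) ^ N)) : nU F x ∈ cgs (I ^ N) := by
  have h1 := enU_cgs I N x hx
  rw [mem_cgs, ← Ideal.map_pow] at h1
  rw [mem_cgs, ← Ideal.comap_map_eq_self_of_faithfullyFlat (A := 𝓞 F) (B := 𝓞 L) (I ^ N),
    Ideal.mem_comap, map_sub, map_one]
  exact h1

theorem nU_eU (x : (𝓞 F)ˣ) : nU F (eU x : (𝓞 L)ˣ) = x ^ Module.finrank F L := by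
  apply Units.ext
  apply RingOfIntegers.ext
  have h2 : (((eU x : (𝓞 L)ˣ) : 𝓞 L) : L) = algebraMap F L ((x : 𝓞 F) : F) := rfl
  rw [nU_coe, Units.val_pow_eq_pow_val, h2, Algebra.norm_algebraMap]
  exact (map_pow (algebraMap (𝓞 F) F) _ _).symm

end Q

/-- **JOB CR1A** -/
theorem cr1a : S_CR1A := by
  intro p _ _ F L _ _ _ _ _ ζ d hζ hKum hd I _ s hF hL
  classical
  have hpp : p.Prime := Fact.out
  have hgal : IsGalois F L := isGalois_kum hζ hKum hd
  obtain ⟨n, ε, hε, a, ha, hrel⟩ := hL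
  obtain ⟨q, δ, hFF, hFF0, -, hδ, hFspan⟩ := unit_basis (K := F) ⊤
  obtain ⟨P, θ, h, hh0, hθE, hθ, hspan⟩ := unit_basis (K := L) (nU F : (𝓞 L)ˣ →* (𝓞 F)ˣ).ker
  -- the map to the units of norm `1`
  let dU : (𝓞 L)ˣ →* (𝓞 L)ˣ := powMonoidHom p / (eU : (𝓞 F)ˣ →* (𝓞 L)ˣ).comp (nU F)
  have hdU : ∀ x, dU x = x ^ p / eU (nU F x) := fun x => rfl
  have hdker : ∀ x, dU x ∈ (nU F : (𝓞 L)ˣ →* (𝓞 F)ˣ).ker := by
    intro x
    rw [MonoidHom.mem_ker, hdU, map_div, div_eq_one, map_pow, nU_eU, hKum.deg]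
  have hdcg : ∀ N x, x ∈ cgs (I.map (algebraMap (𝓞 F) (𝓞 L)) ^ N) →
      dU x ∈ cgs (I.map (algebraMap (𝓞 F) (𝓞 L)) ^ N) := by
    intro N x hx
    rw [hdU]
    exact (cgs (I.map (algebraMap (𝓞 F) (𝓞 L)) ^ N)).div_mem
      ((cgs (I.map (algebraMap (𝓞 F) (𝓞 L)) ^ N)).pow_mem hx p) (enU_cgs I N x hx)
  have hC : ∀ i, ∃ C : Fin q → ℤ, nU F (ε i) ^ hFF = ∏ j, δ j ^ C j := by
    intro i
    obtain ⟨c, hc⟩ := hFspan (nU F (ε i)) (Subgroup.mem_top _)
    refine ⟨fun j => c j * hFF, ?_⟩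
    rw [hc, ← Finset.prod_pow]
    refine Finset.prod_congr rfl fun j _ => ?_
    rw [zpow_mul, zpow_natCast]
  have hC' : ∀ i, ∃ C : Fin P → ℤ, dU (ε i) ^ h = ∏ j, θ j ^ C j := by
    intro i
    obtain ⟨c, hc⟩ := hspan (dU (ε i)) (hdker _)
    refine ⟨fun j => c j * h, ?_⟩
    rw [hc, ← Finset.prod_pow]
    refine Finset.prod_congr rfl fun j _ => ?_
    rw [zpow_mul, zpow_natCast]
  choose C hC using hC
  choose C' hC' using hC'
  -- relations
  have hspanrel : Submodule.span ℤ_[p] (Set.range a) ≤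
      relMod p (I.map (algebraMap (𝓞 F) (𝓞 L))) ε := by
    rw [Submodule.span_le]
    rintro _ ⟨j, rfl⟩
    exact hrel j
  have hrelF : ∀ b, Rel p L (I.map (algebraMap (𝓞 F) (𝓞 L))) ε b → Rel p F I δ (lm p C b) := fun b hb =>
    rel_lm hFF C hC (rel_hom (nU F) (fun N x hx => nU_cgs I N x hx) hb)
  have hrelL : ∀ b, Rel p L (I.map (algebraMap (𝓞 F) (𝓞 L))) ε b →
      Rel p L (I.map (algebraMap (𝓞 F) (𝓞 L))) θ (lm p C' b) := fun b hb =>
    rel_lm h C' hC' (rel_hom dU hdcg hb)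
  -- a vector in the kernel
  have hdep : ¬ LinearIndependent ℤ_[p] fun j => lm p C (a j) := fun hli =>
    hF ⟨q, δ, hδ, fun j => lm p C (a j), hli, fun j => hrelF _ (hrel j)⟩
  obtain ⟨g, hg, i0, hi0⟩ := Fintype.not_linearIndependent_iff.1 hdep
  obtain ⟨b, hb⟩ : ∃ b : Fin n → ℤ_[p], b = ∑ j, g j • a j := ⟨_, rfl⟩
  have hb0 : b ≠ 0 := by
    intro h0
    rw [hb] at h0
    exact hi0 (Fintype.linearIndependent_iff.1 ha g h0 i0)
  have hbrel : Rel p L (I.map (algebraMap (𝓞 F) (𝓞 L))) ε b := by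
    apply hspanrel
    rw [hb]
    exact Submodule.sum_mem _ fun j _ => Submodule.smul_mem _ _ (Submodule.subset_span ⟨j, rfl⟩)
  have hbC : lm p C b = 0 := by
    rw [hb, map_sum, ← hg]
    exact Finset.sum_congr rfl fun j _ => map_smul _ _ _
  refine ⟨P, θ, h, hh0, fun i => nU_eq_one.1 (hθE i), hθ, fun η hη => ?_, lm p C' b, ?_, hrelL b hbrel⟩
  · exact hspan η (nU_eq_one.2 hη)
  · intro hbC'
    apply hb0
    refine inj_padic (ι := Fin q ⊕ Fin P) (fun i => Sum.elim (C i) (C' i)) ?_ b ?_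
    · intro c hc
      have hc1 : ∀ j, ∑ i, c i * C i j = 0 := fun j => hc (Sum.inl j)
      have hc2 : ∀ j, ∑ i, c i * C' i j = 0 := fun j => hc (Sum.inr j)
      obtain ⟨X, hX⟩ : ∃ X, X = ∏ i, ε i ^ c i := ⟨_, rfl⟩
      have g1 : nU F X ^ hFF = 1 := by
        have e1 : nU F X = ∏ i, nU F (ε i) ^ c i := by
          rw [hX, map_prod]
          exact Finset.prod_congr rfl fun i _ => map_zpow _ _ _
        rw [e1, prod_pow_comb _ δ hFF C hC]
        refine Finset.prod_eq_one fun j _ => ?_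
        rw [hc1, zpow_zero]
      have g2 : dU X ^ h = 1 := by
        have e1 : dU X = ∏ i, dU (ε i) ^ c i := by
          rw [hX, map_prod]
          exact Finset.prod_congr rfl fun i _ => map_zpow _ _ _
        rw [e1, prod_pow_comb _ θ h C' hC']
        refine Finset.prod_eq_one fun j _ => ?_
        rw [hc2, zpow_zero]
      have g3 : X ^ p = eU (nU F X) * dU X := by
        rw [hdU, mul_div_cancel]
      have g4 : X ^ (p * (hFF * h)) = 1 := by
        rw [pow_mul, g3, mul_pow]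
        have e1 : (eU (nU F X) : (𝓞 L)ˣ) ^ (hFF * h) = 1 := by
          rw [pow_mul, ← map_pow, g1, map_one, one_pow]
        have e2 : dU X ^ (hFF * h) = 1 := by
          rw [mul_comm, pow_mul, g2, one_pow]
        rw [e1, e2, mul_one]
      have g5 : ∏ i, ε i ^ (c i * ((p * (hFF * h) : ℕ) : ℤ)) = 1 := by
        rw [← g4, hX, ← Finset.prod_pow]
        refine Finset.prod_congr rfl fun i _ => ?_
        rw [zpow_mul, zpow_natCast]
      have g6 := hε _ g5
      funext i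
      have g7 := congrFun g6 i
      have g8 : ((p * (hFF * h) : ℕ) : ℤ) ≠ 0 := by
        have : 0 < p * (hFF * h) := Nat.mul_pos hpp.pos (Nat.mul_pos hFF0 hh0)
        exact_mod_cast this.ne'
      exact (mul_eq_zero.1 g7).resolve_right g8
    · rintro (j | j)
      · exact congrFun hbC j
      · exact congrFun hbC' j

end Pool.Agent.Q123.LK
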