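import Pool.Agent.Q7.LK.Stm

/-!
# Project LK, job SH2: the solutions of the table
-/

set_option autoImplicit false

namespace Pool.Agent.Q123.LK

open NumberField IsDedekindDomain Filter Topology Finset
open Pool.Agent.Q7.LK
open Pool.Agent.Q283.LQ (Sm Box Nest nS)

section Eqv

variable {p : ℕ} {F : Type} [Field F]

/-- `a` and `b` differ by the `p`-th power of a nonzero number -/
def Eqv (p : ℕ) (a b : F) : Prop := ∃ x : F, x ≠ 0 ∧ a = b * x ^ p

theorem eqv_refl (a : F) : Eqv p a a := ⟨1, one_ne_zero, by rw [one_pow, mul_one]⟩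

theorem eqv_symm {a b : F} (h : Eqv p a b) : Eqv p b a := by
  obtain ⟨x, hx, rfl⟩ := h
  refine ⟨x⁻¹, inv_ne_zero hx, ?_⟩
  rw [mul_assoc, ← mul_pow, mul_inv_cancel₀ hx, one_pow, mul_one]

theorem eqv_trans {a b c : F} (h : Eqv p a b) (h' : Eqv p b c) : Eqv p a c := by
  obtain ⟨x, hx, rfl⟩ := h
  obtain ⟨z, hz, rfl⟩ := h'
  exact ⟨z * x, mul_ne_zero hz hx, by rw [mul_pow, mul_assoc]⟩

theorem eqv_mul {a b c d : F} (h : Eqv p a b) (h' : Eqv p c d) : Eqv p (a * c) (b * d) := by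
  obtain ⟨x, hx, rfl⟩ := h
  obtain ⟨z, hz, rfl⟩ := h'
  exact ⟨x * z, mul_ne_zero hx hz, by rw [mul_pow]; ring⟩

theorem eqv_inv {a b : F} (h : Eqv p a b) : Eqv p a⁻¹ b⁻¹ := by
  obtain ⟨x, hx, rfl⟩ := h
  exact ⟨x⁻¹, inv_ne_zero hx, by rw [mul_inv, inv_pow]⟩

theorem eqv_pow {a b : F} (h : Eqv p a b) (n : ℕ) : Eqv p (a ^ n) (b ^ n) := by
  obtain ⟨x, hx, rfl⟩ := h
  exact ⟨x ^ n, pow_ne_zero n hx, by rw [mul_pow, ← pow_mul, ← pow_mul, mul_comm p n]⟩

theorem eqv_prod {ι : Type} (s : Finset ι) (a b : ι → F) (h : ∀ i ∈ s, Eqv p (a i) (b i)) :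
    Eqv p (∏ i ∈ s, a i) (∏ i ∈ s, b i) := by
  classical
  induction s using Finset.induction_on with
  | empty => exact eqv_refl _
  | insert i s hi ih =>
    rw [Finset.prod_insert hi, Finset.prod_insert hi]
    exact eqv_mul (h i (Finset.mem_insert_self i s)) (ih fun j hj => h j (Finset.mem_insert_of_mem hj))

theorem eqv_one_of {a : F} (ha : a ≠ 0) (h : IsPow p a) (hp : p ≠ 0) : Eqv p a 1 := by
  obtain ⟨x, rfl⟩ := h
  refine ⟨x, ?_, (one_mul _).symm⟩
  rintro rfl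
  exact ha (zero_pow hp)

theorem isPow_of {a : F} (h : Eqv p a 1) : IsPow p a := by
  obtain ⟨x, _, rfl⟩ := h
  exact ⟨x, one_mul _⟩

theorem eqv_pow_p {a : F} (ha : a ≠ 0) : Eqv p (a ^ p) 1 := ⟨a, ha, (one_mul _).symm⟩

theorem eqv_one_mul {a b : F} (h : Eqv p b 1) : Eqv p (a * b) a := by
  have := eqv_mul (eqv_refl (p := p) a) h
  rwa [mul_one] at this

variable [Fact p.Prime]

theorem eqv_mon {f : ℕ} {u : Fin f → F} (hu : ∀ l, u l ≠ 0) (n : Fin f → ℕ) (c : Fin f → ZMod p)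
    (h : ∀ l, (n l : ZMod p) = c l) : Eqv p (∏ l, u l ^ n l) (mon u c) := by
  unfold mon
  refine eqv_prod _ _ _ fun l _ => ?_
  refine ⟨u l ^ (n l / p), pow_ne_zero _ (hu l), ?_⟩
  rw [← h l, ZMod.val_natCast, ← pow_mul, ← pow_add]
  congr 1
  have := Nat.mod_add_div (n l) p
  rw [mul_comm (n l / p) p]
  exact this.symm

omit [Fact p.Prime] in
theorem mon_ne {f : ℕ} {u : Fin f → F} (hu : ∀ l, u l ≠ 0) (c : Fin f → ZMod p) : mon u c ≠ 0 :=
  Finset.prod_ne_zero_iff.2 fun l _ => pow_ne_zero _ (hu l)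

/-- `∏ (∏ u ^ φ_j) ^ Y_j` is `∏ u ^ (∑ Y_j φ_j)` up to `p`-th powers -/
theorem eqv_mon_sum {f k : ℕ} {u : Fin f → F} (hu : ∀ l, u l ≠ 0) (φ : Fin k → Fin f → ZMod p)
    (Y : Fin k → ZMod p) : Eqv p (∏ j, mon u (φ j) ^ (Y j).val) (mon u (∑ j, Y j • φ j)) := by
  have h1 : ∏ j, mon u (φ j) ^ (Y j).val = ∏ l, u l ^ (∑ j, (φ j l).val * (Y j).val) := by
    unfold mon
    simp_rw [← Finset.prod_pow, ← pow_mul]
    rw [Finset.prod_comm]
    exact Finset.prod_congr rfl fun l _ => Finset.prod_pow_eq_pow_sum _ _ _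
  rw [h1]
  refine eqv_mon hu _ _ fun l => ?_
  rw [Nat.cast_sum, Finset.sum_apply]
  refine Finset.sum_congr rfl fun j _ => ?_
  rw [Nat.cast_mul, ZMod.natCast_zmod_val, ZMod.natCast_zmod_val, Pi.smul_apply, smul_eq_mul, mul_comm]

end Eqv

variable {p : ℕ} [Fact p.Prime] {F : Type} [Field F] [NumberField F]

theorem lpw_pow_p (hB : S_BAS) (v : HeightOneSpectrum (𝓞 F)) {a : F} (ha : a ≠ 0) : Lpw p v (a ^ p) :=
  (hB p F v).2.2.1 a ha

theorem lpw_mul (hB : S_BAS) {v : HeightOneSpectrum (𝓞 F)} {a b : F} (ha : Lpw p v a) (hb : Lpw p v b) :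
    Lpw p v (a * b) := (hB p F v).2.1 a b ha hb

theorem lpw_inv (hB : S_BAS) {v : HeightOneSpectrum (𝓞 F)} {a : F} (ha : Lpw p v a) : Lpw p v a⁻¹ :=
  (hB p F v).2.2.2.1 a ha

theorem lpw_ne (hB : S_BAS) {v : HeightOneSpectrum (𝓞 F)} {a : F} (ha : Lpw p v a) : a ≠ 0 :=
  ((hB p F v).1 a ha).1

theorem lpw_vl (hB : S_BAS) {v : HeightOneSpectrum (𝓞 F)} {a : F} (ha : Lpw p v a) : vl p v a = 0 :=
  ((hB p F v).1 a ha).2

theorem lpw_one (hB : S_BAS) (v : HeightOneSpectrum (𝓞 F)) : Lpw p v (1 : F) := by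
  have := lpw_pow_p (p := p) hB v (one_ne_zero (α := F))
  rwa [one_pow] at this

theorem lpw_pow (hB : S_BAS) {v : HeightOneSpectrum (𝓞 F)} {a : F} (ha : Lpw p v a) (n : ℕ) :
    Lpw p v (a ^ n) := by
  induction n with
  | zero => rw [pow_zero]; exact lpw_one hB v
  | succ n ih => rw [pow_succ]; exact lpw_mul hB ih ha

theorem lpw_eqv (hB : S_BAS) {v : HeightOneSpectrum (𝓞 F)} {a b : F} (h : Eqv p a b) (hb : Lpw p v b) :
    Lpw p v a := by
  obtain ⟨x, hx, rfl⟩ := h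
  exact lpw_mul hB hb (lpw_pow_p hB v hx)

theorem vl_mul (hB : S_BAS) (v : HeightOneSpectrum (𝓞 F)) {a b : F} (ha : a ≠ 0) (hb : b ≠ 0) :
    vl p v (a * b) = vl p v a + vl p v b := (hB p F v).2.2.2.2.1 a b ha hb

theorem vl_one (hB : S_BAS) (v : HeightOneSpectrum (𝓞 F)) : vl p v (1 : F) = 0 := lpw_vl hB (lpw_one hB v)

theorem vl_pow (hB : S_BAS) (v : HeightOneSpectrum (𝓞 F)) {a : F} (ha : a ≠ 0) (n : ℕ) :
    vl p v (a ^ n) = n * vl p v a := by
  induction n with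
  | zero => rw [pow_zero, vl_one hB, Nat.cast_zero, zero_mul]
  | succ n ih => rw [pow_succ, vl_mul hB v (pow_ne_zero n ha) ha, ih, Nat.cast_succ, add_mul, one_mul]

theorem vl_inv (hB : S_BAS) (v : HeightOneSpectrum (𝓞 F)) {a : F} (ha : a ≠ 0) :
    vl p v a⁻¹ = - vl p v a := by
  have h := vl_mul (p := p) hB v ha (inv_ne_zero ha)
  rw [mul_inv_cancel₀ ha, vl_one hB] at h
  exact eq_neg_of_add_eq_zero_right h.symm

theorem vl_prod (hB : S_BAS) (v : HeightOneSpectrum (𝓞 F)) {ι : Type} (s : Finset ι) (a : ι → F)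
    (ha : ∀ i ∈ s, a i ≠ 0) : vl p v (∏ i ∈ s, a i) = ∑ i ∈ s, vl p v (a i) := by
  classical
  induction s using Finset.induction_on with
  | empty => rw [Finset.prod_empty, Finset.sum_empty, vl_one hB]
  | insert i s hi ih =>
    rw [Finset.prod_insert hi, Finset.sum_insert hi, vl_mul hB v (ha i (Finset.mem_insert_self i s))
      (Finset.prod_ne_zero_iff.2 fun j hj => ha j (Finset.mem_insert_of_mem hj)),
      ih fun j hj => ha j (Finset.mem_insert_of_mem hj)]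

theorem vl_eqv (hB : S_BAS) (v : HeightOneSpectrum (𝓞 F)) {a b : F} (h : Eqv p a b) (hb : b ≠ 0) :
    vl p v a = vl p v b := by
  obtain ⟨x, hx, rfl⟩ := h
  rw [vl_mul hB v hb (pow_ne_zero _ hx), lpw_vl hB (lpw_pow_p hB v hx), add_zero]

theorem nn_mul (hB : S_BAS) {y : ℕ} {a b : F} (ha : Nn p y a) (hb : Nn p y b) : Nn p y (a * b) :=
  ⟨mul_ne_zero ha.1 hb.1, fun v hv => lpw_mul hB (ha.2 v hv) (hb.2 v hv)⟩

theorem nn_pow (hB : S_BAS) {y : ℕ} {a : F} (ha : Nn p y a) (n : ℕ) : Nn p y (a ^ n) :=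
  ⟨pow_ne_zero n ha.1, fun v hv => lpw_pow hB (ha.2 v hv) n⟩

theorem nn_one (hB : S_BAS) (y : ℕ) : Nn p y (1 : F) := ⟨one_ne_zero, fun v _ => lpw_one hB v⟩

theorem nn_prod (hB : S_BAS) {y : ℕ} {ι : Type} (s : Finset ι) (a : ι → F)
    (ha : ∀ i ∈ s, Nn p y (a i)) : Nn p y (∏ i ∈ s, a i) := by
  classical
  induction s using Finset.induction_on with
  | empty => rw [Finset.prod_empty]; exact nn_one hB y
  | insert i s hi ih =>
    rw [Finset.prod_insert hi]
    exact nn_mul hB (ha i (Finset.mem_insert_self i s)) (ih fun j hj => ha j (Finset.mem_insert_of_mem hj))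

theorem nn_eqv (hB : S_BAS) {y : ℕ} {a b : F} (h : Eqv p a b) (hb : Nn p y b) : Nn p y a := by
  refine ⟨?_, fun v hv => lpw_eqv hB h (hb.2 v hv)⟩
  obtain ⟨x, hx, rfl⟩ := h
  exact mul_ne_zero hb.1 (pow_ne_zero _ hx)

omit [NumberField F] in
theorem sm_of_dp {y : ℕ} (hy : p ≤ y) {v : HeightOneSpectrum (𝓞 F)} (h : Dp p v) : Sm y v :=
  ⟨p, Fact.out, hy, h⟩

section Sy

variable {ζ : F}

theorem sy_mul (hB : S_BAS) (hζ : IsPrimitiveRoot ζ p) {v : HeightOneSpectrum (𝓞 F)} (hv : ¬ Dp p v) {a b : F}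
    (ha : a ≠ 0) (hb : b ≠ 0) (ha' : vl p v a = 0) (hb' : vl p v b = 0) :
    sy p ζ v (a * b) = sy p ζ v a + sy p ζ v b :=
  ((hB p F v).2.2.2.2.2.2 hv ζ hζ).2.2.1 a b ha hb ha' hb'

theorem sy_lpw (hB : S_BAS) (hζ : IsPrimitiveRoot ζ p) {v : HeightOneSpectrum (𝓞 F)} (hv : ¬ Dp p v) {a : F}
    (ha : Lpw p v a) : sy p ζ v a = 0 :=
  (((hB p F v).2.2.2.2.2.2 hv ζ hζ).2.2.2 a (lpw_ne hB ha) (lpw_vl hB ha)).2 ha

theorem sy_eqv (hB : S_BAS) (hζ : IsPrimitiveRoot ζ p) {v : HeightOneSpectrum (𝓞 F)} (hv : ¬ Dp p v) {a b : F}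
    (h : Eqv p a b) (hb : b ≠ 0) (hb' : vl p v b = 0) : sy p ζ v a = sy p ζ v b := by
  obtain ⟨x, hx, rfl⟩ := h
  have h1 := lpw_pow_p (p := p) hB v hx
  rw [sy_mul hB hζ hv hb (pow_ne_zero _ hx) hb' (lpw_vl hB h1), sy_lpw hB hζ hv h1, add_zero]

theorem sy_pow (hB : S_BAS) (hζ : IsPrimitiveRoot ζ p) {v : HeightOneSpectrum (𝓞 F)} (hv : ¬ Dp p v) {a : F}
    (ha : a ≠ 0) (ha' : vl p v a = 0) (n : ℕ) : sy p ζ v (a ^ n) = n * sy p ζ v a := by
  induction n with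
  | zero => rw [pow_zero, sy_lpw hB hζ hv (lpw_one hB v), Nat.cast_zero, zero_mul]
  | succ n ih =>
    rw [pow_succ, sy_mul hB hζ hv (pow_ne_zero n ha) ha (by rw [vl_pow hB v ha, ha', mul_zero]) ha', ih,
      Nat.cast_succ, add_mul, one_mul]

theorem sy_prod (hB : S_BAS) (hζ : IsPrimitiveRoot ζ p) {v : HeightOneSpectrum (𝓞 F)} (hv : ¬ Dp p v)
    {ι : Type} (s : Finset ι) (a : ι → F) (ha : ∀ i ∈ s, a i ≠ 0) (ha' : ∀ i ∈ s, vl p v (a i) = 0) :
    sy p ζ v (∏ i ∈ s, a i) = ∑ i ∈ s, sy p ζ v (a i) := by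
  classical
  induction s using Finset.induction_on with
  | empty => rw [Finset.prod_empty, Finset.sum_empty]; exact sy_lpw hB hζ hv (lpw_one hB v)
  | insert i s hi ih =>
    have h1 : ∀ j ∈ s, a j ≠ 0 := fun j hj => ha j (Finset.mem_insert_of_mem hj)
    have h2 : ∀ j ∈ s, vl p v (a j) = 0 := fun j hj => ha' j (Finset.mem_insert_of_mem hj)
    rw [Finset.prod_insert hi, Finset.sum_insert hi, sy_mul hB hζ hv (ha i (Finset.mem_insert_self i s))
      (Finset.prod_ne_zero_iff.2 h1) (ha' i (Finset.mem_insert_self i s))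
      (by rw [vl_prod hB v s a h1]; exact Finset.sum_eq_zero h2), ih h1 h2]

theorem vl_mon (hB : S_BAS) (v : HeightOneSpectrum (𝓞 F)) {f : ℕ} {u : Fin f → F} (hu : ∀ l, u l ≠ 0)
    (hv : ∀ l, vl p v (u l) = 0) (c : Fin f → ZMod p) : vl p v (mon u c) = 0 := by
  unfold mon
  rw [vl_prod hB v _ _ fun l _ => pow_ne_zero _ (hu l)]
  refine Finset.sum_eq_zero fun l _ => ?_
  rw [vl_pow hB v (hu l), hv l, mul_zero]

theorem sy_mon (hB : S_BAS) (hζ : IsPrimitiveRoot ζ p) {v : HeightOneSpectrum (𝓞 F)} (hv : ¬ Dp p v) {f : ℕ}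
    {u : Fin f → F} (hu : ∀ l, u l ≠ 0) (ho : ∀ l, vl p v (u l) = 0) (c : Fin f → ZMod p) :
    sy p ζ v (mon u c) = dot (fun l => sy p ζ v (u l)) c := by
  unfold mon dot
  rw [sy_prod hB hζ hv _ _ (fun l _ => pow_ne_zero _ (hu l))
    (fun l _ => by rw [vl_pow hB v (hu l), ho l, mul_zero])]
  refine Finset.sum_congr rfl fun l _ => ?_
  rw [sy_pow hB hζ hv (hu l) (ho l), ZMod.natCast_zmod_val, mul_comm]

end Sy

/-- the class of the product of the generators -/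
theorem nn_gen (hB : S_BAS) {ζ : F} {y f : ℕ} {u r : Fin f → F} {π : HeightOneSpectrum (𝓞 F) → F}
    {g : (Fin f → ZMod p) → (Fin f → ZMod p) → ZMod p} (B : Base p ζ y f u r π g) {k : ℕ}
    (q : Fin k → HeightOneSpectrum (𝓞 F)) (hS : ∀ i, ¬ Sm y (q i)) (φ : Fin k → Fin f → ZMod p)
    (hφ : ∀ j l, sy p ζ (q j) (u l) = φ j l) (Y : Fin k → ZMod p) :
    Nn p y ((∏ j, π (q j) ^ (Y j).val) * mon r (∑ j, Y j • φ j)) := by
  have h1 : Nn p y (∏ j, (π (q j) * mon r (φ j)) ^ (Y j).val) := by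
    refine nn_prod hB _ _ fun j _ => nn_pow hB ?_ _
    have h2 := B.pc (q j) (hS j)
    have h3 : (fun l => sy p ζ (q j) (u l)) = φ j := funext fun l => hφ j l
    rwa [h3] at h2
  simp_rw [mul_pow] at h1
  rw [Finset.prod_mul_distrib] at h1
  exact nn_eqv hB (eqv_mul (eqv_refl _) (eqv_symm (eqv_mon_sum B.re φ Y))) h1

theorem cond_pow (hB : S_BAS) {A : HeightOneSpectrum (𝓞 F) → F → F → Prop} {c : HeightOneSpectrum (𝓞 F) → ℕ}
    (hL : Loc p A c) {D a : F} (hD : D ≠ 0) (h : Cond p A D a) (i t : ℕ) : Cond p A D (a ^ i * D ^ t) where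
  ne := mul_ne_zero (pow_ne_zero _ h.ne) (pow_ne_zero _ hD)
  unr := by
    intro v hv ho
    rw [vl_mul hB v (pow_ne_zero _ h.ne) (pow_ne_zero _ hD), vl_pow hB v h.ne, vl_pow hB v hD, ho,
      h.unr v hv ho, mul_zero, mul_zero, add_zero]
  ram := by
    intro v hv ho
    obtain ⟨j, hj⟩ := h.ram v hv ho
    refine ⟨j * i + t * (p - 1), ?_⟩
    have h1 : a ^ i * D ^ t * D ^ (j * i + t * (p - 1)) = (a * D ^ j) ^ i * (D ^ t) ^ p := by
      have hp : p = (p - 1) + 1 := by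
        have := (Fact.out : p.Prime).one_lt
        omega
      have h2 : (D ^ t) ^ p = D ^ t * D ^ (t * (p - 1)) := by
        rw [← pow_mul, ← pow_add]
        congr 1
        conv_lhs => rw [hp]
        ring
      rw [h2, mul_pow, pow_add, ← pow_mul]
      ring
    rw [h1]
    exact lpw_mul hB (lpw_pow hB hj i) (lpw_pow_p hB v (pow_ne_zero _ hD))
  abv := by
    intro v hv
    have h1 := hL.pow v D a hv hD (h.abv v hv) i
    induction t with
    | zero => rwa [pow_zero, mul_one]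
    | succ t ih =>
      rw [pow_succ, ← mul_assoc]
      exact hL.clo v D _ hv hD ih

theorem condS_of (hB : S_BAS) {A : HeightOneSpectrum (𝓞 F) → F → F → Prop} {c : HeightOneSpectrum (𝓞 F) → ℕ}
    (hL : Loc p A c) {y : ℕ} (hy : p ≤ y) {D0 D a : F} (hD0 : D0 ≠ 0) (hD : D ≠ 0)
    (hN : ∀ v : HeightOneSpectrum (𝓞 F), Sm y v → Lpw p v (D / D0))
    (h : Cond p A D a) : CondS p A y D0 a where
  ne := h.ne
  unr := by
    intro v hs hv ho
    apply h.unr v hv
    have h1 := lpw_vl hB (hN v hs)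
    rw [div_eq_mul_inv, vl_mul hB v hD (inv_ne_zero hD0), vl_inv hB v hD0, ho, neg_zero, add_zero] at h1
    exact h1
  ram := by
    intro v hs hv ho
    have h0 := hN v hs
    have h1 := lpw_vl hB h0
    rw [div_eq_mul_inv, vl_mul hB v hD (inv_ne_zero hD0), vl_inv hB v hD0] at h1
    have h2 : vl p v D ≠ 0 := by
      intro h3
      rw [h3, zero_add, neg_eq_zero] at h1
      exact ho h1
    obtain ⟨j, hj⟩ := h.ram v hv h2
    refine ⟨j, ?_⟩
    have h3 : a * D0 ^ j = a * D ^ j * ((D / D0) ^ j)⁻¹ := by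
      rw [div_pow]
      field_simp
    rw [h3]
    exact lpw_mul hB hj (lpw_inv hB (lpw_pow hB h0 j))
  abv := by
    intro v hv
    have h0 := hN v (sm_of_dp hy hv)
    have h1 := lpw_inv hB h0
    rw [inv_div] at h1
    have h3 := hL.inv v D (D0 / D) a hv hD h1 (h.abv v hv)
    rwa [mul_div_cancel₀ _ hD] at h3

/-- the solution belonging to `a` -/
theorem sol (hB : S_BAS) (hSH1 : S_SH1) {ζ : F} (hζ : IsPrimitiveRoot ζ p) {y f : ℕ} {u r : Fin f → F}
    {π : HeightOneSpectrum (𝓞 F) → F} {g : (Fin f → ZMod p) → (Fin f → ZMod p) → ZMod p}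
    (B : Base p ζ y f u r π g) {A : HeightOneSpectrum (𝓞 F) → F → F → Prop} {cc : HeightOneSpectrum (𝓞 F) → ℕ}
    (hL : Loc p A cc) {D0 : F} {ψ w : Fin f → ZMod p} (hD0 : D0 ≠ 0) (hw : Nn p y (D0 * mon r ψ * mon u w))
    {k : ℕ} (z : Fin k → ZMod p) (q : Fin k → HeightOneSpectrum (𝓞 F)) (hz : ∀ i, z i ≠ 0)
    (hq : Function.Injective q) (hS : ∀ i, ¬ Sm y (q i)) (τ : Tab p f k) (hτ : Tb ζ u π τ q)
    (E : Finset ((Fin f → ZMod p) × (Fin f → ZMod p)))
    (hE : ∀ a x, CondS p A y D0 a → Nn p y (a * mon r x.1 * mon u x.2) → x ∈ E)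
    {D : F} (hfit : Fits p y D0 z q D) {a : F} (ha : Cond p A D a)
    (h0 : ∀ j : Fin k, (j : ℕ) = 0 → vl p (q j) a = 0) (hns : ¬ IsPow p a) :
    ∃ x : (Fin f → ZMod p) × (Fin k → ZMod p), IsSol g w z E τ x ∧
      Eqv p (a * mon u x.1) (∏ j, π (q j) ^ (x.2 j).val) := by
  classical
  have hp0 : p ≠ 0 := (Fact.out : p.Prime).ne_zero
  have hπ : ∀ i, π (q i) ≠ 0 := fun i => (B.po (q i) (hS i)).1
  have hdp : ∀ v : HeightOneSpectrum (𝓞 F), ¬ Sm y v → ¬ Dp p v := fun v hv h => hv (sm_of_dp B.two h)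
  have hvD : ∀ j, vl p (q j) D = z j := by
    intro j
    rw [hfit.ram _ (hS j), Finset.sum_eq_single j]
    · rw [if_pos rfl]
    · intro i _ hi
      rw [if_neg fun h => hi (hq h)]
    · intro h; exact absurd (Finset.mem_univ j) h
  have hvπ : ∀ i v, ¬ Sm y v → vl p v (π (q i)) = if q i = v then 1 else 0 := by
    intro i v hv
    rw [(B.po (q i) (hS i)).2 v hv]
    by_cases h : v = q i
    · rw [if_pos h, if_pos h.symm]
    · rw [if_neg h, if_neg fun h' => h h'.symm]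
  set Y : Fin k → ZMod p := fun j => vl p (q j) a with hY
  set P : F := ∏ j, π (q j) ^ (Y j).val with hP
  have hP0 : P ≠ 0 := Finset.prod_ne_zero_iff.2 fun j _ => pow_ne_zero _ (hπ j)
  have hvP : ∀ v, ¬ Sm y v → vl p v P = ∑ j, if q j = v then Y j else 0 := by
    intro v hv
    rw [hP, vl_prod hB v _ _ fun j _ => pow_ne_zero _ (hπ j)]
    refine Finset.sum_congr rfl fun j _ => ?_
    rw [vl_pow hB v (hπ j), hvπ j v hv, ZMod.natCast_zmod_val]
    split_ifs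
    · rw [mul_one]
    · rw [mul_zero]
  have hev : ∀ v, ¬ Sm y v → vl p v (a * P⁻¹) = 0 := by
    intro v hv
    rw [vl_mul hB v ha.ne (inv_ne_zero hP0), vl_inv hB v hP0, hvP v hv]
    by_cases h : ∃ i, q i = v
    · obtain ⟨i, rfl⟩ := h
      rw [Finset.sum_eq_single i]
      · rw [if_pos rfl, add_neg_cancel]
      · intro j _ hj
        rw [if_neg fun h => hj (hq h)]
      · intro h; exact absurd (Finset.mem_univ i) h
    · have h1 : vl p v D = 0 := by
        rw [hfit.ram v hv]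
        exact Finset.sum_eq_zero fun i _ => if_neg fun h' => h ⟨i, h'⟩
      rw [ha.unr v (hdp v hv) h1, Finset.sum_eq_zero fun i _ => if_neg fun h' => h ⟨i, h'⟩, neg_zero, add_zero]
  obtain ⟨c, hc⟩ := B.full _ (mul_ne_zero ha.ne (inv_ne_zero hP0)) hev
  have hmc : mon u c ≠ 0 := mon_ne B.ue c
  have hmw : mon u w ≠ 0 := mon_ne B.ue w
  have hc1 : Eqv p (a * P⁻¹ * mon u c) 1 :=
    eqv_one_of (mul_ne_zero (mul_ne_zero ha.ne (inv_ne_zero hP0)) hmc) hc hp0
  have hc2 : Eqv p (a * mon u c) P := by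
    have h1 := eqv_mul hc1 (eqv_refl (p := p) P)
    rw [one_mul] at h1
    have h2 : a * P⁻¹ * mon u c * P = a * mon u c := by field_simp
    rwa [h2] at h1
  refine ⟨(c, Y), ⟨h0, ?_, ?_, ?_⟩, hc2⟩
  · intro h
    have h1 : c = 0 := congrArg Prod.fst h
    have h2 : Y = 0 := congrArg Prod.snd h
    apply hns
    have h3 : P = 1 := by
      rw [hP, h2]
      simp
    have h4 : mon u c = 1 := by
      rw [h1]
      simp [mon]
    rw [h3, h4, mul_one] at hc2
    exact isPow_of hc2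
  · -- the class
    show (∑ j, Y j • τ.1 j, c) ∈ E
    refine hE a _ (condS_of hB hL B.two hD0 hfit.ne hfit.loc ha) ?_
    have h1 := nn_gen hB B q hS τ.1 hτ.1 Y
    have h2 : Eqv p (a * mon r (∑ j, Y j • τ.1 j) * mon u c) (P * mon r (∑ j, Y j • τ.1 j)) := by
      have h3 := eqv_mul hc2 (eqv_refl (p := p) (mon r (∑ j, Y j • τ.1 j)))
      have h4 : a * mon u c * mon r (∑ j, Y j • τ.1 j) = a * mon r (∑ j, Y j • τ.1 j) * mon u c := by ring
      rwa [h4] at h3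
    exact nn_eqv hB h2 h1
  · intro j
    show ∑ i, (Y i - Y j * (z j)⁻¹ * z i) * Mt g τ i j = dot (τ.1 j) (c - (Y j * (z j)⁻¹) • w)
    have hdj := hdp _ (hS j)
    obtain ⟨s, hs⟩ := ha.ram (q j) hdj (by rw [hvD j]; exact hz j)
    have hvs := lpw_vl hB hs
    rw [vl_mul hB _ ha.ne (pow_ne_zero _ hfit.ne), vl_pow hB _ hfit.ne, hvD j] at hvs
    have hs' : (s : ZMod p) = - (Y j * (z j)⁻¹) := by
      have h1 : Y j + s * z j = 0 := hvs
      have h2 := hz j
      field_simp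
      linear_combination h1
    -- the relation for `D`
    have hDw := (hSH1 p F ζ hζ y f u r π g B D0 ψ w hD0 hw k z q hq hS τ hτ).2 D hfit
    set Q : F := ∏ j, π (q j) ^ (z j).val with hQ
    have hQ0 : Q ≠ 0 := Finset.prod_ne_zero_iff.2 fun j _ => pow_ne_zero _ (hπ j)
    have hD1 : Eqv p (D * mon u w) Q := by
      have h1 := eqv_one_of (div_ne_zero (mul_ne_zero hfit.ne hmw) hQ0) hDw hp0
      have h2 := eqv_mul h1 (eqv_refl (p := p) Q)
      rwa [one_mul, div_mul_cancel₀ _ hQ0] at h2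
    -- all together
    have h1 : Eqv p (a * D ^ s * (mon u c * mon u w ^ s)) (∏ i, π (q i) ^ ((Y i).val + s * (z i).val)) := by
      have h2 := eqv_mul hc2 (eqv_pow hD1 s)
      have h3 : a * mon u c * (D * mon u w) ^ s = a * D ^ s * (mon u c * mon u w ^ s) := by
        rw [mul_pow]; ring
      have h4 : P * Q ^ s = ∏ i, π (q i) ^ ((Y i).val + s * (z i).val) := by
        rw [hP, hQ, ← Finset.prod_pow, ← Finset.prod_mul_distrib]
        refine Finset.prod_congr rfl fun i _ => ?_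
        rw [pow_add, mul_comm s, pow_mul]
      rwa [h3, h4] at h2
    have h2 : ∏ i, π (q i) ^ ((Y i).val + s * (z i).val) =
        (∏ i ∈ univ.erase j, π (q i) ^ ((Y i).val + s * (z i).val)) * π (q j) ^ ((Y j).val + s * (z j).val) :=
      (Finset.prod_erase_mul _ _ (Finset.mem_univ j)).symm
    have h3 : p ∣ (Y j).val + s * (z j).val := by
      rw [← ZMod.natCast_eq_zero_iff, Nat.cast_add, Nat.cast_mul, ZMod.natCast_zmod_val, ZMod.natCast_zmod_val]
      exact hvs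
    obtain ⟨m, hm⟩ := h3
    set R : F := ∏ i ∈ univ.erase j, π (q i) ^ ((Y i).val + s * (z i).val) with hR
    have hR0 : R ≠ 0 := Finset.prod_ne_zero_iff.2 fun i _ => pow_ne_zero _ (hπ i)
    have h4 : Eqv p (a * D ^ s * (mon u c * mon u w ^ s)) R := by
      refine eqv_trans h1 ?_
      rw [h2, hm, mul_comm p m, pow_mul]
      exact eqv_one_mul (eqv_pow_p (pow_ne_zero _ (hπ j)))
    have hoi : ∀ i ∈ univ.erase j, vl p (q j) (π (q i)) = 0 := by
      intro i hi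
      rw [hvπ i _ (hS j), if_neg fun h => (Finset.mem_erase.1 hi).1 (hq h)]
    have hvR : vl p (q j) R = 0 := by
      rw [hR, vl_prod hB _ _ _ fun i _ => pow_ne_zero _ (hπ i)]
      refine Finset.sum_eq_zero fun i hi => ?_
      rw [vl_pow hB _ (hπ i), hoi i hi, mul_zero]
    have hou : ∀ l, vl p (q j) (u l) = 0 := fun l => B.uo l _ (hS j)
    have hvc : vl p (q j) (mon u c) = 0 := vl_mon hB _ B.ue hou c
    have hvw : vl p (q j) (mon u w) = 0 := vl_mon hB _ B.ue hou w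
    have hvws : vl p (q j) (mon u w ^ s) = 0 := by rw [vl_pow hB _ hmw, hvw, mul_zero]
    have h5 := sy_eqv hB hζ hdj h4 hR0 hvR
    rw [sy_mul hB hζ hdj (mul_ne_zero ha.ne (pow_ne_zero _ hfit.ne)) (mul_ne_zero hmc (pow_ne_zero _ hmw))
        (lpw_vl hB hs) (by rw [vl_mul hB _ hmc (pow_ne_zero _ hmw), hvc, hvws, add_zero]),
      sy_lpw hB hζ hdj hs, zero_add, sy_mul hB hζ hdj hmc (pow_ne_zero _ hmw) hvc hvws,
      sy_pow hB hζ hdj hmw hvw, sy_mon hB hζ hdj B.ue hou, sy_mon hB hζ hdj B.ue hou, hR,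
      sy_prod hB hζ hdj _ _ (fun i _ => pow_ne_zero _ (hπ i))
        (fun i hi => by rw [vl_pow hB _ (hπ i), hoi i hi, mul_zero])] at h5
    have h6 : (fun l => sy p ζ (q j) (u l)) = τ.1 j := funext fun l => hτ.1 j l
    rw [h6] at h5
    have h7 : ∀ i ∈ univ.erase j, sy p ζ (q j) (π (q i) ^ ((Y i).val + s * (z i).val)) =
        (Y i - Y j * (z j)⁻¹ * z i) * Mt g τ i j := by
      intro i hi
      have hij : i ≠ j := (Finset.mem_erase.1 hi).1
      rw [sy_pow hB hζ hdj (hπ i) (hoi i hi), Nat.cast_add, Nat.cast_mul, ZMod.natCast_zmod_val,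
        ZMod.natCast_zmod_val, hs']
      have h8 : sy p ζ (q j) (π (q i)) = Mt g τ i j := by
        unfold Mt
        rcases lt_trichotomy i j with h9 | h9 | h9
        · rw [dif_pos h9]
          exact hτ.2 ⟨(i, j), h9⟩
        · exact absurd h9 hij
        · rw [dif_neg (not_lt.mpr h9.le), dif_pos h9]
          have h10 := B.rcp (q i) (q j) (hS i) (hS j) fun h => hij (hq h)
          have h11 := hτ.2 ⟨(j, i), h9⟩
          simp only at h11
          have h12 : (fun l => sy p ζ (q i) (u l)) = τ.1 i := funext fun l => hτ.1 i l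
          rw [h6, h12, h11] at h10
          rw [← h10]
          ring
      rw [h8]
      ring
    rw [Finset.sum_congr rfl h7] at h5
    rw [← Finset.sum_erase_add _ _ (Finset.mem_univ j), ← h5, hs']
    have h8 : Y j - Y j * (z j)⁻¹ * z j = 0 := by
      rw [mul_assoc, inv_mul_cancel₀ (hz j), mul_one, sub_self]
    rw [h8, zero_mul, add_zero]
    simp only [dot, Pi.sub_apply, Pi.smul_apply, smul_eq_mul, mul_sub, Finset.sum_sub_distrib]
    rw [neg_mul, ← sub_eq_add_neg, Finset.mul_sum]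
    congr 1
    exact Finset.sum_congr rfl fun l _ => by ring

/-- **JOB SH2** -/
theorem sh2 (hBAS : S_BAS) (hSH1 : S_SH1) : S_SH2 := by
  classical
  intro p _ F _ _ ζ hζ y f u r π g B A cc hL D0 ψ w hD0 hw k z q hk hz hq hS τ hτ E hE D hfit hbad
  obtain ⟨a, ha, hnp⟩ := hbad
  have hpp : p.Prime := Fact.out
  have hp0 : p ≠ 0 := hpp.ne_zero
  have hp1 : 1 < p := hpp.one_lt
  have hD := hfit.ne
  -- no power of `a` prime to `p` is a power of `D`
  have hni : ∀ i t : ℕ, 1 ≤ i → i < p → ¬ IsPow p (a ^ i * D ^ t) := by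
    intro i t hi1 hi2 h
    have hcop : Nat.Coprime i p := by
      rw [Nat.coprime_comm]
      exact (hpp.coprime_iff_not_dvd).2 fun h => absurd (Nat.le_of_dvd hi1 h) (not_le.2 hi2)
    obtain ⟨i', hi'⟩ := Nat.exists_mul_mod_eq_one_of_coprime hcop hp1
    have h1 : i * i' = p * (i * i' / p) + 1 := by
      have := Nat.div_add_mod (i * i') p
      omega
    set m := i * i' / p
    have h2 := eqv_one_of (mul_ne_zero (pow_ne_zero i ha.ne) (pow_ne_zero t hD)) h hp0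
    have h3 := eqv_pow h2 i'
    rw [one_pow, mul_pow, ← pow_mul, ← pow_mul, h1, pow_succ, pow_mul] at h3
    apply hnp (t * i')
    apply isPow_of
    refine eqv_trans ?_ h3
    have h4 : (a ^ p) ^ m * a * D ^ (t * i') = a * D ^ (t * i') * (a ^ m) ^ p := by
      rw [← pow_mul, ← pow_mul, mul_comm p m]; ring
    rw [h4]
    exact eqv_symm (eqv_one_mul (eqv_pow_p (pow_ne_zero _ ha.ne)))
  have hvD : ∀ j, vl p (q j) D = z j := by
    intro j
    rw [hfit.ram _ (hS j), Finset.sum_eq_single j]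
    · rw [if_pos rfl]
    · intro i _ hi
      rw [if_neg fun h => hi (hq h)]
    · intro h; exact absurd (Finset.mem_univ j) h
  have key : ∀ i : Fin (p - 1), ∃ (x : (Fin f → ZMod p) × (Fin k → ZMod p)) (t : ℕ), IsSol g w z E τ x ∧
      Eqv p (a ^ ((i : ℕ) + 1) * D ^ t * mon u x.1) (∏ j, π (q j) ^ (x.2 j).val) := by
    intro i
    set j0 : Fin k := ⟨0, hk⟩
    set e : ZMod p := - (((((i : ℕ) + 1 : ℕ) : ZMod p)) * vl p (q j0) a * (z j0)⁻¹) with he
    have h1 := cond_pow hBAS hL hD ha ((i : ℕ) + 1) e.val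
    have h2 : ∀ j : Fin k, (j : ℕ) = 0 → vl p (q j) (a ^ ((i : ℕ) + 1) * D ^ e.val) = 0 := by
      intro j hj
      have hj' : j = j0 := Fin.ext hj
      rw [hj', vl_mul hBAS _ (pow_ne_zero _ ha.ne) (pow_ne_zero _ hD), vl_pow hBAS _ ha.ne, vl_pow hBAS _ hD, hvD,
        ZMod.natCast_zmod_val, he, neg_mul, mul_assoc, inv_mul_cancel₀ (hz j0), mul_one, add_neg_cancel]
    have h3 : ¬ IsPow p (a ^ ((i : ℕ) + 1) * D ^ e.val) := hni _ _ (by omega) (by have := i.2; omega)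
    obtain ⟨x, hx1, hx2⟩ := sol hBAS hSH1 hζ B hL hD0 hw z q hz hq hS τ hτ E hE hfit h1 h2 h3
    exact ⟨x, e.val, hx1, hx2⟩
  choose x t hx hxe using key
  have hlt : ∀ i i' : Fin (p - 1), i < i' → x i ≠ x i' := by
    intro i i' hii h
    have h1 := hxe i
    rw [h] at h1
    have h2 := eqv_trans h1 (eqv_symm (hxe i'))
    have hm : mon u (x i').1 ≠ 0 := mon_ne B.ue _
    have h3 : Eqv p (a ^ ((i : ℕ) + 1) * D ^ t i) (a ^ ((i' : ℕ) + 1) * D ^ t i') := by
      have h4 := eqv_mul h2 (eqv_refl (p := p) (mon u (x i').1)⁻¹)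
      rwa [mul_inv_cancel_right₀ hm, mul_inv_cancel_right₀ hm] at h4
    have hlt' : (i : ℕ) < i' := hii
    apply hni ((i' : ℕ) - i) (t i' + t i * (p - 1)) (by omega) (by have := i'.2; omega)
    apply isPow_of
    have h5 := eqv_mul (eqv_symm h3) (eqv_refl (p := p) (a ^ ((i : ℕ) + 1) * D ^ t i)⁻¹)
    have ha1 : a ^ ((i : ℕ) + 1) ≠ 0 := pow_ne_zero _ ha.ne
    have hD1 : D ^ t i ≠ 0 := pow_ne_zero _ hD
    rw [mul_inv_cancel₀ (mul_ne_zero ha1 hD1)] at h5
    refine eqv_trans ?_ h5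
    have h6 : a ^ ((i' : ℕ) - i) * D ^ (t i' + t i * (p - 1)) =
        a ^ ((i' : ℕ) + 1) * D ^ t i' * (a ^ ((i : ℕ) + 1) * D ^ t i)⁻¹ * (D ^ t i) ^ p := by
      have h7 : a ^ ((i' : ℕ) + 1) = a ^ ((i' : ℕ) - i) * a ^ ((i : ℕ) + 1) := by
        rw [← pow_add]; congr 1; omega
      have h8 : (D ^ t i) ^ p = D ^ t i * D ^ (t i * (p - 1)) := by
        rw [← pow_mul, ← pow_add]
        congr 1
        have : p = (p - 1) + 1 := by omega
        conv_lhs => rw [this]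
        ring
      rw [h7, h8, pow_add]
      field_simp
    rw [h6]
    exact eqv_one_mul (eqv_pow_p hD1)
  have hinj : Function.Injective x := by
    intro i i' h
    rcases lt_trichotomy i i' with h1 | h1 | h1
    · exact absurd h (hlt _ _ h1)
    · exact h1
    · exact absurd h.symm (hlt _ _ h1)
  calc p - 1 = (univ : Finset (Fin (p - 1))).card := by simp
    _ = (univ.image x).card := (Finset.card_image_of_injective _ hinj).symm
    _ ≤ _ := by
      apply Finset.card_le_card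
      intro e he
      obtain ⟨i, _, rfl⟩ := Finset.mem_image.mp he
      simp only [Finset.mem_filter, Finset.mem_univ, true_and]
      exact hx i

end Pool.Agent.Q123.LK
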